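import Pool.Agent.H49.CL.Targets
import Pool.Agent.H57.CN.Basics

/-! Row CMX of cl_modules: images with the largest number of classes. -/

set_option autoImplicit false
set_option linter.unusedVariables false

namespace Pool.Agent.H44.CL

open Pool.Agent.H68.BP Pool.Agent.H58.SF Pool.Agent.H53.NR
open Pool.Agent.H57.AR (tp ty Ty)
open Pool.Agent.H57.EQ (Cx)
open Pool.Agent.H44.KR (HB Tyi TpOn)
open Pool.Agent.H72.CH Pool.Agent.H49.CL
open Pool.Agent.H57.CN (lv_tp tp_comp)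
open Function

theorem pair_comp {V W : Type} (f : W → V) (s t : W) :
    (fun a : Fin 2 => f (![s, t] a)) = ![f s, f t] := by
  funext a
  fin_cases a <;> rfl

theorem tp_pair {V W : Type} {ρ : Sig} {𝔹 : Str ρ V} {u v : W → V} (h : tp 𝔹 u = tp 𝔹 v)
    (s t : W) : tp 𝔹 ![u s, u t] = tp 𝔹 ![v s, v t] := by
  have h1 := tp_comp h ![s, t]
  rw [pair_comp u s t, pair_comp v s t] at h1
  exact h1

theorem ncl_le {V : Type} (lv : V → V → ℕ) (i n : ℕ) (ψ : Fin n → V) :
    ncl lv i ψ Set.univ ≤ n := by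
  unfold ncl
  refine (Set.ncard_image_le Set.finite_univ).trans ?_
  rw [Set.ncard_univ, Nat.card_eq_fintype_card, Fintype.card_fin]

theorem pf_CMX : T_CMX := by
  intro hNCA hNCU V ρ σ 𝔹 m lv 𝔸 i j R hV hA hmul hRE hi him hji n G
  classical
  have hp := hV.lev.pl
  -- the largest number of classes
  obtain ⟨y, hyG, hymax⟩ : ∃ y : Fin n → V, Cx 𝔸 (fun _ : Unit => G) y ∧
      ∀ y' : Fin n → V, Cx 𝔸 (fun _ : Unit => G) y' →
        ncl lv i y' Set.univ ≤ ncl lv i y Set.univ := by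
    let T : Set ℕ := {N | ∃ y : Fin n → V, Cx 𝔸 (fun _ : Unit => G) y ∧
      ncl lv i y Set.univ = N}
    have hT : T.Nonempty := ⟨_, G, fun l z h => h (), rfl⟩
    have hb : BddAbove T := ⟨n, by
      rintro N ⟨y, _, rfl⟩
      exact ncl_le lv i n y⟩
    obtain ⟨y, h1, h2⟩ := Nat.sSup_mem hT hb
    refine ⟨y, h1, fun y' h' => ?_⟩
    rw [h2]
    exact le_csSup hb ⟨y', h', rfl⟩
  -- the copies
  have hY : ∀ u : Fin n, ∃ Y : Fin (n + 1) → Fin n → V, (∀ a, tp 𝔹 (Y a) = tp 𝔹 y) ∧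
      (∀ a, ∀ c ∈ {b : Fin n | j ≤ lv (y b) (y u)}, Y a c = y c) ∧
      ∀ a b, a ≠ b → ∀ w w' j', 1 ≤ j' → j' ≤ lv (Y a w) (Y b w') →
        ∃ c ∈ {b : Fin n | j ≤ lv (y b) (y u)}, j' ≤ lv (y w) (y c) ∧ j' ≤ lv (y c) (y w') :=
    fun u => hmul (Fin n) {b : Fin n | j ≤ lv (y b) (y u)} y (n + 1)
  choose Y hY1 hY2 hY3 using hY
  obtain ⟨e, he1, he2, he3⟩ := hRE.e
  let T : Type := Fin n ⊕ (Fin n × Fin (n + 1) × Fin n)
  let Z0 : T → V := Sum.elim y (fun t => Y t.1 t.2.1 t.2.2)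
  let eq : T ≃ Fin (Fintype.card T) := Fintype.equivFin T
  let z : Fin (Fintype.card T) → V := fun s => e (Z0 (eq.symm s))
  let ι : Fin n → Fin (Fintype.card T) := fun a => eq (Sum.inl a)
  have hz : ∀ t : T, z (eq t) = e (Z0 t) := fun t => by
    show e (Z0 (eq.symm (eq t))) = e (Z0 t)
    rw [Equiv.symm_apply_apply]
  have hlvz : ∀ s t : T, lv (z (eq s)) (z (eq t)) = lv (Z0 s) (Z0 t) := fun s t => by
    rw [hz, hz, he2]
  refine ⟨Fintype.card T, z, ι, ?_, fun s t => he3 _ _, ?_⟩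
  · intro l w hw
    have h1 : (fun a => z (ι (w a))) = fun a => e (y (w a)) := by
      funext a
      exact hz _
    rw [h1]
    exact he1 l _ (hyG l w hw)
  intro u g z' hg hz' hex
  -- levels of the copy
  have hl' : ∀ s t : T, lv (z' (eq s)) (z' (eq t)) = lv (Z0 s) (Z0 t) := fun s t => by
    rw [← hlvz s t]
    exact lv_tp hV hz' _ _
  obtain ⟨S, hS⟩ : ∃ S : Set (Fin n), S = {b : Fin n | j ≤ lv (y b) (y u)} := ⟨_, rfl⟩
  have hS' : {a | j ≤ lv (z (ι a)) (z (ι u))} = S := by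
    rw [hS]
    ext a
    show j ≤ lv (z (eq (Sum.inl a))) (z (eq (Sum.inl u))) ↔ j ≤ lv (y a) (y u)
    rw [hlvz]
    rfl
  rw [hS']
  have huS : u ∈ S := by
    rw [hS]
    show j ≤ lv (y u) (y u)
    rw [hp.self]
    exact hji.trans him
  by_contra hlt
  rw [not_le] at hlt
  -- exactness outside the class
  have hout : ∀ a c, c ∉ S → lv (z (eq (Sum.inr (u, a, c)))) (z (ι u)) < j := by
    intro a c hc
    have h1 : lv (z (eq (Sum.inr (u, a, c)))) (z (ι u)) = lv (y c) (y u) := by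
      show lv (z (eq (Sum.inr (u, a, c)))) (z (eq (Sum.inl u))) = _
      rw [hlvz]
      show lv (Y u a c) (y u) = lv (y c) (y u)
      have h2 := lv_tp hV (hY1 u a) c u
      rw [hY2 u a u (by rw [← hS]; exact huS)] at h2
      exact h2
    rw [h1]
    rw [hS] at hc
    exact not_le.1 hc
  have hexact : ∀ a c a' c', c ∉ S → c' ∉ S →
      (i ≤ lv (g (z' (eq (Sum.inr (u, a, c))))) (g (z' (eq (Sum.inr (u, a', c'))))) ↔
        i ≤ lv (Y u a c) (Y u a' c')) := by
    intro a c a' c' hc hc'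
    have h1 := hex _ ⟨_, rfl, hout a c hc⟩ _ ⟨_, rfl, hout a' c' hc'⟩ (by
      rw [tp_pair hz']
      exact he3 _ _)
    rw [h1, hl']
    rfl
  -- a copy which is not met
  obtain ⟨a, ha⟩ : ∃ a : Fin (n + 1), ∀ b ∈ S, ∀ c, c ∉ S →
      ¬ i ≤ lv (g (z' (ι b))) (g (z' (eq (Sum.inr (u, a, c))))) := by
    by_contra hno
    push Not at hno
    choose b hb c hc hm using hno
    have hinj : Injective b := by
      intro a a' hab
      by_contra hne
      have h1 := hm a
      have h2 := hm a'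
      rw [← hab] at h2
      have h3 : i ≤ lv (g (z' (eq (Sum.inr (u, a, c a))))) (g (z' (eq (Sum.inr (u, a', c a'))))) := by
        refine le_trans (le_min ?_ h2) (hp.ult _ (g (z' (ι (b a)))) _)
        rw [hp.sym]
        exact h1
      rw [hexact a (c a) a' (c a') (hc a) (hc a')] at h3
      obtain ⟨c0, hc0, h4, _⟩ := hY3 u a a' hne _ _ i hi h3
      refine hc a ?_
      rw [hS]
      exact le_trans (le_min (hji.trans h4) hc0) (hp.ult _ (y c0) _)
    have := Fintype.card_le_of_injective b hinj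
    rw [Fintype.card_fin, Fintype.card_fin] at this
    omega
  -- the image
  let ta : Fin n → T := fun b => if b ∈ S then Sum.inl b else Sum.inr (u, a, b)
  have hta : ∀ b, Z0 (ta b) = Y u a b := by
    intro b
    by_cases hb : b ∈ S
    · show Z0 (if b ∈ S then Sum.inl b else Sum.inr (u, a, b)) = _
      rw [if_pos hb]
      exact (hY2 u a b (by rw [← hS]; exact hb)).symm
    · show Z0 (if b ∈ S then Sum.inl b else Sum.inr (u, a, b)) = _
      rw [if_neg hb]
      rfl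
  let ψ : Fin n → V := fun b => g (z' (eq (ta b)))
  have hψin : ∀ b ∈ S, ψ b = g (z' (ι b)) := by
    intro b hb
    show g (z' (eq (if b ∈ S then Sum.inl b else Sum.inr (u, a, b)))) = _
    rw [if_pos hb]
  have hψout : ∀ b, b ∉ S → ψ b = g (z' (eq (Sum.inr (u, a, b)))) := by
    intro b hb
    show g (z' (eq (if b ∈ S then Sum.inl b else Sum.inr (u, a, b)))) = _
    rw [if_neg hb]
  have hψG : Cx 𝔸 (fun _ : Unit => G) ψ := by
    intro l w hw
    have h1 : 𝔸 l (fun k => y (w k)) := hyG l w hw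
    have h2 : 𝔸 l (fun k => Y u a (w k)) := hA l _ _ h1 (tp_comp (hY1 u a) w)
    have h3 : 𝔸 l (fun k => z (eq (ta (w k)))) := by
      have h4 : (fun k => z (eq (ta (w k)))) = fun k => e (Y u a (w k)) := by
        funext k
        rw [hz, hta]
      rw [h4]
      exact he1 l _ h2
    exact hg l _ (hA l _ _ h3 (tp_comp hz' (fun k => eq (ta (w k)))))
  have hmax := hymax ψ hψG
  -- counting
  have n1 : ncl lv i ψ (S ∪ Sᶜ) = ncl lv i ψ S + ncl lv i ψ Sᶜ := by
    refine (hNCU V (Fin n) m lv i ψ S Sᶜ hp him).2 fun b hb c hc => ?_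
    rw [hψin b hb, hψout c hc]
    exact ha b hb c hc
  have n2 : ncl lv i y (S ∪ Sᶜ) ≤ ncl lv i y S + ncl lv i y Sᶜ :=
    (hNCU V (Fin n) m lv i y S Sᶜ hp him).1
  have n3 : ncl lv i y Sᶜ ≤ ncl lv i ψ Sᶜ := by
    refine (hNCA V (Fin n) m lv i ψ y Sᶜ hp him fun c hc c' hc' h => ?_).1
    rw [hψout c hc, hψout c' hc', hexact a c a c' hc hc', lv_tp hV (hY1 u a) c c'] at h
    exact h
  have n4 : ncl lv i (fun a => g (z' (ι a))) S ≤ ncl lv i ψ S := by
    refine (hNCA V (Fin n) m lv i ψ (fun a => g (z' (ι a))) S hp him fun c hc c' hc' h => ?_).1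
    rw [hψin c hc, hψin c' hc'] at h
    exact h
  have n5 : ncl lv i y S ≤ ncl lv i (fun a => z (ι a)) S := by
    refine (hNCA V (Fin n) m lv i (fun a => z (ι a)) y S hp him fun c hc c' hc' h => ?_).1
    have h1 : lv (z (eq (Sum.inl c))) (z (eq (Sum.inl c'))) = lv (y c) (y c') := hlvz _ _
    have h2 : i ≤ lv (z (eq (Sum.inl c))) (z (eq (Sum.inl c'))) := h
    rw [h1] at h2
    exact h2
  rw [Set.union_compl_self] at n1 n2
  omega

end Pool.Agent.H44.CL
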